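import Mathlib
import Pool.Agent.H25.Four

open PowerSeries Finset

namespace Pool.Agent.Results.MP_9acee6_nt.Four

/-- The series `1 / (1 - x ^ d) = 1 + x ^ d + x ^ (2 d) + ⋯`. -/
noncomputable def geom (d : ℕ) : ℤ⟦X⟧ := PowerSeries.mk fun j => if d ∣ j then 1 else 0

/-- `S k m n`: the coefficient of `x ^ n` in `(1 - x) ^ (-m) ∏ i, (1 - x ^ k ^ i) ^ (-m (k - 1))`;
the factors with `i > n` are `1` modulo `x ^ (n + 1)` and are left out. -/
noncomputable def S (k m n : ℕ) : ℤ :=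
  coeff n (geom 1 ^ m * ∏ i ∈ range (n + 1), geom (k ^ i) ^ (m * (k - 1)))

/-- The sequence `V_{p,a,m}` of valuations. -/
noncomputable def V (p a m n : ℕ) : ℕ∞ := emultiplicity (p : ℤ) (S (p ^ a) m n)

/-- The `p`-kernel of `e` is finite. -/
def Automatic (p : ℕ) (e : ℕ → ℕ∞) : Prop :=
  {f : ℕ → ℕ∞ | ∃ i, ∃ j < p ^ i, f = fun n => e (p ^ i * n + j)}.Finite

lemma pos {m : ℕ} (h0 : 0 < m) (n : ℕ) : 0 < S 4 m n := by
  let N (B : ℤ⟦X⟧) := (∀ n, 0 ≤ coeff n B) ∧ 0 < coeff 0 B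
  have h1 (a b) (ha : N a) (hb : N b) : N (a * b) := ⟨fun n => by
    rw [coeff_mul]; exact sum_nonneg fun p _ => mul_nonneg (ha.1 _) (hb.1 _),
    by simpa using mul_pos ha.2 hb.2⟩
  have h2 : N 1 := ⟨fun n => by rw [coeff_one]; split_ifs <;> simp, by simp⟩
  have h3 (d k) : N (geom d ^ k) := by
    induction k with
    | zero => exact h2
    | succ k ih =>
      exact h1 _ _ ih ⟨fun n => by rw [geom, coeff_mk]; split_ifs <;> simp, by simp [geom]⟩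
  obtain ⟨m, rfl⟩ := Nat.exists_eq_add_of_le' h0
  have h4 := h1 _ _ (h3 1 m) (prod_induction _ N h1 h2 (s := range (n + 1))
    fun i _ => h3 (4 ^ i) ((m + 1) * (4 - 1)))
  rw [S, pow_succ', mul_assoc, coeff_mul]
  exact sum_pos' (fun p _ => by simpa [geom] using h4.1 _)
    ⟨(n, 0), by simp, by simpa [geom] using h4.2⟩

theorem result (m : ℕ) (h0 : 0 < m) :
    (Automatic 2 (V 2 2 m) ↔ m % 8 ≠ 6) ∧ ((∃ B : ℕ, ∀ n, V 2 2 m n ≤ B) ↔ m % 8 ≠ 6) := by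
  have h1 : m % 8 ≠ 6 → Automatic 2 (V 2 2 m) := fun hm => by
    have K := H25.Four.ker_fin h0.ne' hm 0
    refine (K.union (K.image2 (fun f b n => f (2 * n + b)) (Set.finite_Iio 2))).subset ?_
    rintro _ ⟨i, j, hj, rfl⟩
    obtain ⟨i, rfl | rfl⟩ := i.even_or_odd'
    · exact .inl ⟨i, j, by rwa [pow_mul] at hj, by rw [pow_mul]; rfl⟩
    · have hp : 0 < 4 ^ i := by positivity
      rw [pow_succ, pow_mul] at hj
      rw [pow_succ 2 (2 * i), pow_mul]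
      refine .inr ⟨_, ⟨i, _, Nat.mod_lt j hp, rfl⟩, j / 4 ^ i,
        (Nat.div_lt_iff_lt_mul hp).2 (by rwa [mul_comm]), funext fun n => ?_⟩
      simp only [mul_add, add_assoc, Nat.div_add_mod, ← mul_assoc]
      rfl
  have h2 : Automatic 2 (V 2 2 m) → ∃ B : ℕ, ∀ n, V 2 2 m n ≤ B := fun h => by
    obtain ⟨B, hB⟩ := (h.image fun f => (f 0).toNat).bddAbove
    refine ⟨B, fun n => ?_⟩
    have : V 2 2 m n ≠ ⊤ := finiteMultiplicity_iff_emultiplicity_ne_top.1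
      (Int.finiteMultiplicity_iff.2 ⟨by simp, (pos h0 n).ne'⟩)
    rw [← ENat.natCast_toNat this, Nat.cast_le]
    exact hB ⟨_, ⟨n, n, Nat.lt_two_pow_self, rfl⟩, by simp⟩
  have h3 : (∃ B : ℕ, ∀ n, V 2 2 m n ≤ B) → m % 8 ≠ 6 := fun ⟨B, hB⟩ hm => by
    obtain ⟨n, hn⟩ := MP_53b42b_nt.Unb.result m hm (B + 1)
    have : ((B + 1 : ℕ) : ℕ∞) ≤ V 2 2 m n := le_emultiplicity_of_pow_dvd
      ((pow_dvd_pow_of_dvd (by norm_num) _).trans hn)
    have := Nat.cast_le.1 (this.trans (hB n))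
    omega
  exact ⟨⟨fun h => h3 (h2 h), h1⟩, h3, fun h => h2 (h1 h)⟩

end Pool.Agent.Results.MP_9acee6_nt.Four
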